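import Pool.Agent.Y346.SG.Stm
import Pool.Agent.W215.PQ.L2
import Pool.Agent.W308.PQ.C1
import Pool.Agent.W407.PQ.C2
import Pool.Agent.H951R4.OD.M

set_option autoImplicit false

/-!
# Project SG, task PSUM: summability over sets of primes
-/

namespace Pool.Agent.Y390.SG.PSUM

open Finset Filter Topology
open Pool.Agent.H951R4.OD (ch PI Ex mert_le)
open Pool.Agent.W114.PQ (Dat)
open Pool.Agent.Y346.SG

/-- `log (max t 3)` -/
noncomputable def l3 (t : ℕ) : ℝ := Real.log ((max t 3 : ℕ) : ℝ)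

lemma l3_ge (t : ℕ) : 1 ≤ l3 t := by
  unfold l3
  rw [Real.le_log_iff_exp_le (by positivity)]
  have h1 := Real.exp_one_lt_d9
  have h2 : (3 : ℝ) ≤ ((max t 3 : ℕ) : ℝ) := by exact_mod_cast le_max_right t 3
  linarith

lemma sv_nonneg (D : Dat) (t : ℕ) : 0 ≤ sv D t := by
  unfold sv
  have h1 : 0 ≤ (Real.log ((max t 3 : ℕ) : ℝ)) ^ (-(1 / 4) : ℝ) :=
    Real.rpow_nonneg ((zero_le_one).trans (l3_ge t)) _
  split_ifs <;> linarith

open Classical in
/-- the terms of the reduced series -/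
noncomputable def gt (D : Dat) (t : ℕ) : ℝ :=
  if t.Prime then (1 / (t : ℝ)) * l3 t ^ (1 / 16 : ℝ) * sv D t else 0

lemma gt_nonneg (D : Dat) (t : ℕ) : 0 ≤ gt D t := by
  unfold gt
  split_ifs
  · have h1 := sv_nonneg D t
    have h2 : 0 ≤ l3 t ^ (1 / 16 : ℝ) := Real.rpow_nonneg ((zero_le_one).trans (l3_ge t)) _
    positivity
  · exact le_rfl

/-- the constant of the non exceptional part -/
noncomputable def C2 : ℝ := 20 / Real.log 2 * Real.log 2 ^ (-(3 / 16) : ℝ)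

lemma C2_nonneg : 0 ≤ C2 := by
  have h := Real.log_pos one_lt_two
  have h1 := Real.rpow_nonneg h.le (-(3 / 16) : ℝ)
  unfold C2
  positivity

lemma block (D : Dat) (hρ : ∀ q : ℕ, 0 ≤ D.ρ q ∧ D.ρ q ≤ D.κ) (hκ : 1 ≤ D.κ) (j : ℕ)
    (hj : 2 ≤ j) : ∑ t ∈ Ico (2 ^ j) (2 ^ (j + 1)), gt D t ≤
      16 * D.κ ^ 2 * (1 / (j : ℝ) ^ 2) + C2 * (j : ℝ) ^ (-(19 / 16) : ℝ) := by
  classical
  have hl2 := Real.log_pos one_lt_two
  have hj0 : (0 : ℝ) < j := by exact_mod_cast (by omega : 0 < j)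
  have hj2 : (2 : ℝ) ≤ j := by exact_mod_cast hj
  have h2j : (0 : ℝ) < 2 ^ j := by positivity
  -- facts on the elements of the block
  have hb : ∀ t : ℕ, t ∈ Ico (2 ^ j) (2 ^ (j + 1)) → (2 : ℝ) ^ j ≤ t ∧ l3 t ≤ j + 1 ∧
      j * Real.log 2 ≤ l3 t ∧ Nat.log 2 t = j := by
    intro t ht
    rw [mem_Ico] at ht
    have h4 : 4 ≤ 2 ^ j := by
      calc 4 = 2 ^ 2 := by norm_num
        _ ≤ 2 ^ j := Nat.pow_le_pow_right (by norm_num) hj
    have h3 : max t 3 = t := max_eq_left (by omega)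
    have h5 : (2 : ℝ) ^ j ≤ t := by exact_mod_cast ht.1
    have h6 : (t : ℝ) ≤ 2 ^ (j + 1) := by exact_mod_cast ht.2.le
    have h7 : (0 : ℝ) < t := lt_of_lt_of_le h2j h5
    refine ⟨h5, ?_, ?_, Nat.log_eq_of_pow_le_of_lt_pow ht.1 ht.2⟩
    · unfold l3
      rw [h3]
      have h8 := Real.log_le_log h7 h6
      rw [Real.log_pow] at h8
      have h9 := Real.log_two_lt_d9
      push_cast at h8
      nlinarith
    · unfold l3
      rw [h3, ← Real.log_pow]
      exact Real.log_le_log h2j h5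
  set P := (Ico (2 ^ j) (2 ^ (j + 1))).filter Nat.Prime with hP
  have h1 : ∑ t ∈ Ico (2 ^ j) (2 ^ (j + 1)), gt D t =
      ∑ t ∈ P, (1 / (t : ℝ)) * l3 t ^ (1 / 16 : ℝ) * sv D t := by
    rw [hP, sum_filter]
    exact sum_congr rfl fun t _ => rfl
  have h2 : ∀ t ∈ P, (1 / (t : ℝ)) * l3 t ^ (1 / 16 : ℝ) * sv D t ≤
      (1 / 2 ^ j) * (j + 1) * (if Exc D t then 1 else 0) +
        (1 / 2 ^ j) * (j * Real.log 2) ^ (-(3 / 16) : ℝ) := by
    intro t ht
    obtain ⟨h5, h6, h7, -⟩ := hb t (mem_filter.1 ht).1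
    have hl := l3_ge t
    have hl0 : 0 < l3 t := by linarith
    have h8 : 1 / (t : ℝ) ≤ 1 / 2 ^ j := one_div_le_one_div_of_le h2j h5
    have h9 : 0 ≤ 1 / (t : ℝ) := by positivity
    have e1 : (1 / (t : ℝ)) * l3 t ^ (1 / 16 : ℝ) * sv D t =
        (1 / (t : ℝ)) * l3 t ^ (1 / 16 : ℝ) * (if Exc D t then 1 else 0) +
        (1 / (t : ℝ)) * l3 t ^ (-(3 / 16) : ℝ) := by
      have e2 : sv D t = (if Exc D t then 1 else 0) + l3 t ^ (-(1 / 4) : ℝ) := rfl
      have e3 : l3 t ^ (-(3 / 16) : ℝ) = l3 t ^ (1 / 16 : ℝ) * l3 t ^ (-(1 / 4) : ℝ) := by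
        rw [← Real.rpow_add hl0]
        norm_num
      rw [e2, e3]
      ring
    rw [e1]
    refine add_le_add ?_ ?_
    · have h10 : l3 t ^ (1 / 16 : ℝ) ≤ j + 1 := by
        calc l3 t ^ (1 / 16 : ℝ) ≤ l3 t ^ (1 : ℝ) :=
              Real.rpow_le_rpow_of_exponent_le hl (by norm_num)
          _ = l3 t := Real.rpow_one _
          _ ≤ j + 1 := h6
      have h11 : 0 ≤ l3 t ^ (1 / 16 : ℝ) := Real.rpow_nonneg hl0.le _
      have h12 : (0 : ℝ) ≤ if Exc D t then 1 else 0 := by split_ifs <;> norm_num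
      exact mul_le_mul_of_nonneg_right (mul_le_mul h8 h10 h11 (by positivity)) h12
    · have h10 : l3 t ^ (-(3 / 16) : ℝ) ≤ (j * Real.log 2) ^ (-(3 / 16) : ℝ) :=
        Real.rpow_le_rpow_of_nonpos (by positivity) h7 (by norm_num)
      exact mul_le_mul h8 h10 (Real.rpow_nonneg hl0.le _) (by positivity)
  rw [h1]
  refine (sum_le_sum h2).trans ?_
  rw [sum_add_distrib, ← mul_sum, sum_const, nsmul_eq_mul]
  refine add_le_add ?_ ?_
  · -- exceptional primes
    have h3 : (∑ t ∈ P, if Exc D t then (1 : ℝ) else 0) = ((P.filter (Exc D)).card : ℝ) := by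
      rw [sum_ite, sum_const_zero, add_zero, sum_const, nsmul_eq_mul, mul_one]
    rw [h3]
    have h4 := Pool.Agent.W215.PQ.l2 D.κ (cf D) hκ (fun q => by
      unfold cf
      split_ifs
      · rw [abs_zero]; linarith
      · rw [abs_of_nonneg (hρ q).1]; exact (hρ q).2) (max 3 (j ^ 3)) (2 ^ (j / 4)) (2 ^ j)
      (le_trans (by norm_num) (le_max_left _ _)) (by
        rw [← pow_mul]
        exact Nat.pow_le_pow_right (by norm_num) (Nat.div_mul_le_self j 4))
    have h5 : (P.filter (Exc D)).card ≤ ((Ioc (2 ^ j) (2 * 2 ^ j)).filter (fun x : ℕ =>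
        1 / 2 < |∑ q ∈ PI (max 3 (j ^ 3)) (2 ^ (j / 4)), cf D q * ch (x : ℤ) q / q|)).card := by
      refine card_le_card ?_
      intro t ht
      rw [mem_filter] at ht
      obtain ⟨ht1, ht2⟩ := ht
      have ht3 := mem_filter.1 ht1
      obtain ⟨-, -, -, hlog⟩ := hb t ht3.1
      have ht4 := mem_Ico.1 ht3.1
      rw [mem_filter, mem_Ioc]
      refine ⟨⟨lt_of_le_of_ne ht4.1 ?_, ?_⟩, ?_⟩
      · intro h
        have h6 := ht3.2
        rw [← h] at h6
        exact Nat.Prime.not_prime_pow hj h6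
      · rw [pow_succ] at ht4
        omega
      · have h7 : Exc D t := ht2
        unfold Exc Yt Qt at h7
        rw [hlog] at h7
        exact h7
    have h6 : ((P.filter (Exc D)).card : ℝ) ≤ 8 * D.κ ^ 2 * 2 ^ j / (j : ℝ) ^ 3 := by
      refine (Nat.cast_le.2 h5).trans (h4.trans ?_)
      push_cast
      refine div_le_div_of_nonneg_left (by positivity) (by positivity) ?_
      exact le_max_right _ _
    calc 1 / 2 ^ j * ((j : ℝ) + 1) * ((P.filter (Exc D)).card : ℝ)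
        ≤ 1 / 2 ^ j * ((j : ℝ) + 1) * (8 * D.κ ^ 2 * 2 ^ j / (j : ℝ) ^ 3) :=
          mul_le_mul_of_nonneg_left h6 (by positivity)
      _ = 8 * D.κ ^ 2 * (((j : ℝ) + 1) / (j : ℝ) ^ 3) := by
          field_simp
      _ ≤ 8 * D.κ ^ 2 * (2 * (1 / (j : ℝ) ^ 2)) := by
          refine mul_le_mul_of_nonneg_left ?_ (by positivity)
          rw [mul_one_div, div_le_div_iff₀ (by positivity) (by positivity)]
          have h7 : (j : ℝ) ^ 3 = j * (j : ℝ) ^ 2 := by ring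
          rw [h7]
          have h8 : 0 ≤ (j : ℝ) ^ 2 := sq_nonneg _
          nlinarith
      _ = 16 * D.κ ^ 2 * (1 / (j : ℝ) ^ 2) := by ring
  · -- the other primes
    have h3 : P.card ≤ Nat.primeCounting (2 ^ (j + 1)) := by
      rw [Nat.primeCounting, Nat.primeCounting', Nat.count_eq_card_filter_range]
      refine card_le_card ?_
      intro t ht
      rw [hP, mem_filter, mem_Ico] at ht
      rw [mem_filter, mem_range]
      exact ⟨by omega, ht.2⟩
    have h4 := Pool.Agent.W407.PQ.C2.cheb (2 ^ (j + 1)) 1 le_rfl (by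
      rw [pow_succ]
      have := Nat.one_le_two_pow (n := j)
      omega) (by rw [one_pow]; exact Nat.one_le_two_pow)
    rw [Nat.div_one] at h4
    push_cast at h4
    rw [div_one, Real.log_pow] at h4
    have h5 : (P.card : ℝ) * (j * Real.log 2) ≤ 20 * 2 ^ j := by
      have h6 : (P.card : ℝ) ≤ (Nat.primeCounting (2 ^ (j + 1)) : ℝ) := by exact_mod_cast h3
      have h7 : (j : ℝ) * Real.log 2 ≤ ((j + 1 : ℕ) : ℝ) * Real.log 2 := by
        push_cast
        nlinarith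
      calc (P.card : ℝ) * (j * Real.log 2)
          ≤ (Nat.primeCounting (2 ^ (j + 1)) : ℝ) * (((j + 1 : ℕ) : ℝ) * Real.log 2) :=
            mul_le_mul h6 h7 (by positivity) (by positivity)
        _ ≤ 10 * 2 ^ (j + 1) := h4
        _ = 20 * 2 ^ j := by ring
    have h6 : (P.card : ℝ) ≤ 20 * 2 ^ j / (j * Real.log 2) := by
      rw [le_div_iff₀ (by positivity)]
      exact h5
    have h7 : ((j : ℝ) * Real.log 2) ^ (-(3 / 16) : ℝ) =
        (j : ℝ) ^ (-(3 / 16) : ℝ) * Real.log 2 ^ (-(3 / 16) : ℝ) :=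
      Real.mul_rpow hj0.le hl2.le
    have h8 : (j : ℝ) ^ (-(19 / 16) : ℝ) = (j : ℝ) ^ (-(3 / 16) : ℝ) / j := by
      have : (-(19 / 16) : ℝ) = -(3 / 16) - 1 := by norm_num
      rw [this, Real.rpow_sub hj0, Real.rpow_one]
    have h9 : 0 ≤ (j : ℝ) ^ (-(3 / 16) : ℝ) := Real.rpow_nonneg hj0.le _
    have h10 : 0 ≤ Real.log 2 ^ (-(3 / 16) : ℝ) := Real.rpow_nonneg hl2.le _
    rw [h7]
    calc (P.card : ℝ) * (1 / 2 ^ j * ((j : ℝ) ^ (-(3 / 16) : ℝ) * Real.log 2 ^ (-(3 / 16) : ℝ)))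
        ≤ 20 * 2 ^ j / (j * Real.log 2) *
          (1 / 2 ^ j * ((j : ℝ) ^ (-(3 / 16) : ℝ) * Real.log 2 ^ (-(3 / 16) : ℝ))) :=
          mul_le_mul_of_nonneg_right h6 (by positivity)
      _ = C2 * (j : ℝ) ^ (-(19 / 16) : ℝ) := by
          rw [h8, C2]
          field_simp

lemma sum_blocks (g : ℕ → ℝ) (J : ℕ) :
    ∑ t ∈ range (2 ^ J), g t = g 0 + ∑ j ∈ range J, ∑ t ∈ Ico (2 ^ j) (2 ^ (j + 1)), g t := by
  induction J with
  | zero => simp
  | succ J ih =>
    rw [sum_range_succ, ← add_assoc, ← ih]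
    rw [range_eq_Ico, range_eq_Ico]
    exact (sum_Ico_consecutive g (Nat.zero_le _)
      (Nat.pow_le_pow_right (by norm_num) (Nat.le_succ J))).symm

lemma summable_gt (D : Dat) (hρ : ∀ q : ℕ, 0 ≤ D.ρ q ∧ D.ρ q ≤ D.κ) (hκ : 1 ≤ D.κ) :
    Summable (gt D) := by
  set h : ℕ → ℝ := fun j => ∑ t ∈ Ico (2 ^ j) (2 ^ (j + 1)), gt D t with hh
  have h0 : ∀ j, 0 ≤ h j := fun j => sum_nonneg fun t _ => gt_nonneg D t
  have hs : Summable h := by
    rw [← summable_nat_add_iff 2]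
    have hb : Summable fun j : ℕ =>
        16 * D.κ ^ 2 * (1 / (j : ℝ) ^ 2) + C2 * (j : ℝ) ^ (-(19 / 16) : ℝ) :=
      ((Real.summable_one_div_nat_pow.2 (by norm_num)).mul_left _).add
        ((Real.summable_nat_rpow.2 (by norm_num)).mul_left _)
    have hb2 := (summable_nat_add_iff 2).2 hb
    exact Summable.of_nonneg_of_le (fun j => h0 _) (fun j => block D hρ hκ (j + 2) (by omega)) hb2
  refine summable_of_sum_range_le (c := gt D 0 + ∑' j, h j) (gt_nonneg D) fun n => ?_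
  calc ∑ t ∈ range n, gt D t ≤ ∑ t ∈ range (2 ^ n), gt D t :=
        sum_le_sum_of_subset_of_nonneg (range_subset_range.2 Nat.lt_two_pow_self.le)
          fun t _ _ => gt_nonneg D t
    _ = gt D 0 + ∑ j ∈ range n, h j := sum_blocks _ n
    _ ≤ gt D 0 + ∑' j, h j := by
        have := hs.sum_le_tsum (range n) fun j _ => h0 j
        linarith

/-- the sets of primes with the maximum `t` -/
lemma fiber (k t : ℕ) (C : ℝ) (_ht : t.Prime)
    (hC : ∀ z : ℕ, 3 ≤ z → |∑ q ∈ PI 0 z, (1 : ℝ) / q - Real.log (Real.log z)| ≤ C)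
    (F : Finset (Finset ℕ)) (hF : ∀ ps ∈ F, AdP k ps ∧ ps.sup id = t) :
    ∑ ps ∈ F, ∏ p ∈ ps, (1 / (p : ℝ)) ≤
      (16 ^ k * Real.exp (C / 16)) * (1 / (t : ℝ) * l3 t ^ (1 / 16 : ℝ)) := by
  classical
  have hmem : ∀ ps ∈ F, t ∈ ps := by
    intro ps hps
    obtain ⟨⟨-, -, hne⟩, h2⟩ := hF ps hps
    obtain ⟨p, hp, hp2⟩ := exists_mem_eq_sup ps hne id
    rw [h2] at hp2
    rw [hp2]
    exact hp
  have hinj : Set.InjOn (fun ps : Finset ℕ => ps.erase t) (F : Set (Finset ℕ)) := by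
    intro a ha b hb hab
    have h1 := hmem a ha
    have h2 := hmem b hb
    have h3 : insert t (a.erase t) = insert t (b.erase t) := congrArg (insert t) hab
    rwa [insert_erase h1, insert_erase h2] at h3
  have h1 : ∑ ps ∈ F, ∏ p ∈ ps, (1 / (p : ℝ)) =
      (1 / (t : ℝ)) * ∑ ps ∈ F.image (fun ps : Finset ℕ => ps.erase t), ∏ p ∈ ps, (1 / (p : ℝ)) := by
    rw [sum_image hinj, mul_sum]
    refine sum_congr rfl fun ps hps => ?_
    rw [mul_prod_erase ps (fun p => 1 / (p : ℝ)) (hmem ps hps)]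
  rw [h1]
  have h2 := Pool.Agent.W308.PQ.rankin (PI 0 (max t 3)) (fun p => 1 / (p : ℝ))
    (fun p => by positivity) k (F.image (fun ps : Finset ℕ => ps.erase t)) (by
      intro ps' hps'
      obtain ⟨ps, hps, rfl⟩ := mem_image.1 hps'
      obtain ⟨⟨h3, h4, -⟩, h5⟩ := hF ps hps
      refine ⟨?_, lt_of_le_of_lt (card_erase_le) h4⟩
      intro p hp
      have h6 := mem_of_mem_erase hp
      have h7 : p ≤ t := by
        rw [← h5]
        exact le_sup (f := id) h6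
      rw [PI, mem_filter, mem_Ioc]
      exact ⟨⟨(h3 p h6).pos, h7.trans (le_max_left _ _)⟩, h3 p h6⟩)
  have h3 := (abs_le.1 (hC (max t 3) (le_max_right _ _))).2
  have hl := l3_ge t
  have hl0 : 0 < l3 t := by linarith
  have h4 : Real.exp ((∑ p ∈ PI 0 (max t 3), 1 / (p : ℝ)) / 16) ≤
      Real.exp (C / 16) * l3 t ^ (1 / 16 : ℝ) := by
    rw [Real.rpow_def_of_pos hl0, ← Real.exp_add]
    refine Real.exp_le_exp.2 ?_
    have e : Real.log (Real.log ((max t 3 : ℕ) : ℝ)) = Real.log (l3 t) := rfl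
    rw [e] at h3
    linarith
  calc (1 / (t : ℝ)) * ∑ ps ∈ F.image (fun ps : Finset ℕ => ps.erase t), ∏ p ∈ ps, (1 / (p : ℝ))
      ≤ (1 / (t : ℝ)) * (16 ^ k * (Real.exp (C / 16) * l3 t ^ (1 / 16 : ℝ))) :=
        mul_le_mul_of_nonneg_left (h2.trans (mul_le_mul_of_nonneg_left h4 (by positivity)))
          (by positivity)
    _ = _ := by ring

theorem psum : S_PSUM := by
  classical
  intro D hρ hκ k
  obtain ⟨C, -, hC⟩ := mert_le
  set A : ℝ := 16 ^ k * Real.exp (C / 16) with hA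
  have hA0 : 0 ≤ A := by positivity
  have hsum := summable_gt D hρ hκ
  refine summable_of_sum_le (c := A * ∑' t, gt D t) ?_ ?_
  · intro ps
    show 0 ≤ if AdP k ps then (∏ p ∈ ps, (1 / (p : ℝ))) * sv D (ps.sup id) else 0
    split_ifs
    · exact mul_nonneg (prod_nonneg fun p _ => by positivity) (sv_nonneg D _)
    · exact le_rfl
  · intro u
    have h1 : (∑ ps ∈ u, if AdP k ps then (∏ p ∈ ps, (1 / (p : ℝ))) * sv D (ps.sup id) else 0) =
        ∑ ps ∈ u.filter (AdP k), (∏ p ∈ ps, (1 / (p : ℝ))) * sv D (ps.sup id) :=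
      (sum_filter _ _).symm
    have h2 : ∑ ps ∈ u.filter (AdP k), (∏ p ∈ ps, (1 / (p : ℝ))) * sv D (ps.sup id) =
        ∑ t ∈ (u.filter (AdP k)).image (fun ps => ps.sup id),
          ∑ ps ∈ (u.filter (AdP k)).filter (fun ps => ps.sup id = t),
            (∏ p ∈ ps, (1 / (p : ℝ))) * sv D (ps.sup id) :=
      (sum_fiberwise_of_maps_to (fun ps hps => mem_image_of_mem _ hps) _).symm
    have h3 : ∀ t ∈ (u.filter (AdP k)).image (fun ps => ps.sup id),
        ∑ ps ∈ (u.filter (AdP k)).filter (fun ps => ps.sup id = t),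
            (∏ p ∈ ps, (1 / (p : ℝ))) * sv D (ps.sup id) ≤ A * gt D t := by
      intro t ht
      obtain ⟨ps0, hps0, rfl⟩ := mem_image.1 ht
      have hpr : (ps0.sup id).Prime := by
        obtain ⟨h4, -, hne⟩ := (mem_filter.1 hps0).2
        obtain ⟨p, hp, hp2⟩ := exists_mem_eq_sup ps0 hne id
        rw [hp2]
        exact h4 p hp
      have h5 := fiber k (ps0.sup id) C hpr hC
        ((u.filter (AdP k)).filter (fun ps => ps.sup id = ps0.sup id)) (by
          intro ps hps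
          rw [mem_filter, mem_filter] at hps
          exact ⟨hps.1.2, hps.2⟩)
      have h6 : ∑ ps ∈ (u.filter (AdP k)).filter (fun ps => ps.sup id = ps0.sup id),
            (∏ p ∈ ps, (1 / (p : ℝ))) * sv D (ps.sup id) =
          (∑ ps ∈ (u.filter (AdP k)).filter (fun ps => ps.sup id = ps0.sup id),
            ∏ p ∈ ps, (1 / (p : ℝ))) * sv D (ps0.sup id) := by
        rw [sum_mul]
        refine sum_congr rfl fun ps hps => ?_
        rw [(mem_filter.1 hps).2]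
      rw [h6]
      have h7 : gt D (ps0.sup id) = (1 / ((ps0.sup id : ℕ) : ℝ)) * l3 (ps0.sup id) ^ (1 / 16 : ℝ) *
          sv D (ps0.sup id) := by
        unfold gt
        rw [if_pos hpr]
      rw [h7, ← mul_assoc]
      exact mul_le_mul_of_nonneg_right h5 (sv_nonneg D _)
    rw [h1, h2]
    refine (sum_le_sum h3).trans ?_
    rw [← mul_sum]
    exact mul_le_mul_of_nonneg_left (hsum.sum_le_tsum _ fun t _ => gt_nonneg D t) hA0

end Pool.Agent.Y390.SG.PSUM
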